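import Mathlib

set_option autoImplicit false
set_option linter.unusedSectionVars false
set_option linter.unusedSimpArgs false

namespace Pool.Agent.H78Lune

variable {F : Type} [Field F]

/-- The off-diagonal entry of the slope matrix. -/
def w (x y : F) : F := x ^ 3 + y ^ 2

/-- The determinant of the slope matrix (characteristic two). -/
def D (x y : F) : F := x * y + (w x y) ^ 2

/-- Points of the plane of order 64: affine points, infinite points with a slope, and one more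
infinite point. -/
inductive Pt (F : Type)
  | aff (u1 u2 v1 v2 : F)
  | inf (x y : F)
  | top

/-- Lines of the plane of order 64. -/
inductive Ln (F : Type)
  | gen (x y k1 k2 : F)
  | vert (k1 k2 : F)
  | lin

/-- Incidence. -/
def inc : Pt F → Ln F → Prop
  | .aff u1 u2 v1 v2, .gen x y k1 k2 =>
      v1 = u1 * x + u2 * w x y + k1 ∧ v2 = u1 * w x y + u2 * y + k2
  | .aff u1 u2 _ _, .vert k1 k2 => u1 = k1 ∧ u2 = k2
  | .aff _ _ _ _, .lin => False
  | .inf x y, .gen x' y' _ _ => x = x' ∧ y = y'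
  | .inf _ _, .vert _ _ => False
  | .inf _ _, .lin => True
  | .top, .gen _ _ _ _ => False
  | .top, .vert _ _ => True
  | .top, .lin => True

section alg

variable (h2 : (2 : F) = 0) (h8 : ∀ x : F, x ^ 8 = x)
include h2 h8

theorem wD (x y : F) : w x y * D x y ^ 2 = y ^ 3 + x ^ 2 * D x y := by
  unfold D w
  linear_combination ((10)*x*y^4 + (2)*x^2*y + (5)*x^4*y^2 + x^7) * h8 x + ((5)*x^3 + y^2) * h8 y + (x*y^7 + (5)*x^2*y^4 + (3)*x^3*y + (3)*x^4*y^5 + (2)*x^5*y^2 + (5)*x^6*y^6 + (3)*x^7*y^3) * h2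

theorem D_ne {x y : F} (h : ¬ (x = 0 ∧ y = 0)) : D x y ≠ 0 := by
  intro hD
  have h1 := wD h2 h8 x y
  rw [hD] at h1
  have hy : y = 0 := by
    have : y ^ 3 = 0 := by linear_combination -h1
    exact pow_eq_zero_iff (by norm_num) |>.mp this
  subst hy
  have hx : x = 0 := by
    have : x ^ 6 = 0 := by
      unfold D w at hD
      linear_combination hD
    exact pow_eq_zero_iff (by norm_num) |>.mp this
  exact h ⟨hx, rfl⟩

theorem det_eq (x y x1 y1 : F) :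
    (x + x1) * (y + y1) + (w x y + w x1 y1) ^ 2 = D (x + x1) (y + y1 + x1 ^ 4 * (x + x1)) := by
  have hx : (x1 ^ 4) ^ 4 = x1 ^ 2 := by linear_combination (x1 ^ 8 + x1) * h8 x1
  have h4 : ∀ a b : F, (a + b) ^ 4 = a ^ 4 + b ^ 4 := by
    intro a b; linear_combination (2 * a ^ 3 * b + 3 * a ^ 2 * b ^ 2 + 2 * a * b ^ 3) * h2
  have h2' : ∀ a b : F, (a + b) ^ 2 = a ^ 2 + b ^ 2 := by
    intro a b; linear_combination (a * b) * h2
  have e1 : (w (x + x1) (y + y1 + x1 ^ 4 * (x + x1))) ^ 2 =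
      (x ^ 2 + x1 ^ 2) * (x ^ 4 + x1 ^ 4) + (y ^ 4 + y1 ^ 4 + x1 ^ 2 * (x ^ 4 + x1 ^ 4)) := by
    unfold w
    rw [h2', ← pow_mul, ← pow_mul, show 2 * 2 = 4 from rfl, h4, h4, mul_pow, hx, h4,
      show 3 * 2 = 2 + 4 from rfl, pow_add, h2', h4]
  have e2 : (w x y + w x1 y1) ^ 2 = x ^ 6 + y ^ 4 + (x1 ^ 6 + y1 ^ 4) := by
    unfold w
    rw [h2', h2', h2', ← pow_mul, ← pow_mul, ← pow_mul, ← pow_mul]
  unfold D
  rw [e1, e2]
  linear_combination ((-1)*x*x1^5 + (-1)*x^2*x1^4 + (-1)*x^4*x1^2 + (-1)*x1^6) * h2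

theorem det_ne {x y x1 y1 : F} (h : ¬ (x = x1 ∧ y = y1)) :
    (x + x1) * (y + y1) + (w x y + w x1 y1) ^ 2 ≠ 0 := by
  rw [det_eq h2 h8]
  apply D_ne h2 h8
  rintro ⟨h3, h4⟩
  rw [h3] at h4
  exact h ⟨by linear_combination h3 - x1 * h2, by linear_combination h4 - y1 * h2⟩

theorem key {d1 d2 x y x1 y1 : F} (e1 : d1 * x + d2 * w x y = d1 * x1 + d2 * w x1 y1)
    (e2 : d1 * w x y + d2 * y = d1 * w x1 y1 + d2 * y1) :
    (d1 = 0 ∧ d2 = 0) ∨ (x = x1 ∧ y = y1) := by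
  by_cases h : x = x1 ∧ y = y1
  · exact Or.inr h
  · left
    have hD := det_ne h2 h8 h
    constructor
    · have : d1 * ((x + x1) * (y + y1) + (w x y + w x1 y1) ^ 2) = 0 := by
        linear_combination (y + y1) * e1 + (w x y + w x1 y1) * e2 + (d1*w x y*w x1 y1 + d1*w x1 y1^2 + d1*x1*y + d1*x1*y1 + (-1)*d2*w x y*y + d2*w x1 y1*y1) * h2
      exact (mul_eq_zero.mp this).resolve_right hD
    · have : d2 * ((x + x1) * (y + y1) + (w x y + w x1 y1) ^ 2) = 0 := by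
        linear_combination (w x y + w x1 y1) * e1 + (x + x1) * e2 + ((-1)*d1*w x y*x + d1*w x1 y1*x1 + d2*w x y*w x1 y1 + d2*w x1 y1^2 + d2*x*y1 + d2*x1*y1) * h2
      exact (mul_eq_zero.mp this).resolve_right hD


theorem surj [Finite F] {d1 d2 : F} (hd : ¬ (d1 = 0 ∧ d2 = 0)) (r s : F) :
    ∃ x y : F, d1 * x + d2 * w x y = r ∧ d1 * w x y + d2 * y = s := by
  have hinj : Function.Injective (fun p : F × F =>
      (d1 * p.1 + d2 * w p.1 p.2, d1 * w p.1 p.2 + d2 * p.2)) := by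
    rintro ⟨x, y⟩ ⟨x', y'⟩ h
    simp only [Prod.mk.injEq] at h
    rcases key h2 h8 h.1 h.2 with h' | h'
    · exact absurd h' hd
    · simp [h'.1, h'.2]
  obtain ⟨⟨x, y⟩, h⟩ := (Finite.injective_iff_surjective.mp hinj) (r, s)
  simp only [Prod.mk.injEq] at h
  exact ⟨x, y, h.1, h.2⟩

theorem inc_uniq {p q : Pt F} {l m : Ln F} (h1 : inc p l) (h2' : inc q l) (h3 : inc p m)
    (h4 : inc q m) : p = q ∨ l = m := by
  cases p <;> cases q <;> cases l <;> cases m <;>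
    simp only [inc, Pt.aff.injEq, Pt.inf.injEq, Ln.gen.injEq, Ln.vert.injEq, reduceCtorEq,
      false_or, or_false] at h1 h2' h3 h4 ⊢
  case aff.aff.gen.gen u1 u2 v1 v2 u1' u2' v1' v2' x y k1 k2 x1 y1 k3 k4 =>
    obtain ⟨a1, a2⟩ := h1
    obtain ⟨b1, b2⟩ := h2'
    obtain ⟨c1, c2⟩ := h3
    obtain ⟨d1, d2⟩ := h4
    have e1 : (u1 - u1') * x + (u2 - u2') * w x y = (u1 - u1') * x1 + (u2 - u2') * w x1 y1 := by
      linear_combination b1 - a1 + c1 - d1
    have e2 : (u1 - u1') * w x y + (u2 - u2') * y = (u1 - u1') * w x1 y1 + (u2 - u2') * y1 := by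
      linear_combination b2 - a2 + c2 - d2
    rcases key h2 h8 e1 e2 with h | h
    · left
      have f1 : u1 = u1' := sub_eq_zero.mp h.1
      have f2 : u2 = u2' := sub_eq_zero.mp h.2
      subst f1 f2
      exact ⟨rfl, rfl, a1.trans b1.symm, a2.trans b2.symm⟩
    · right
      obtain ⟨f1, f2⟩ := h
      subst f1 f2
      refine ⟨rfl, rfl, ?_, ?_⟩
      · linear_combination c1 - a1
      · linear_combination c2 - a2
  case aff.aff.gen.vert =>
    obtain ⟨rfl, rfl⟩ := h3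
    obtain ⟨rfl, rfl⟩ := h4
    exact ⟨rfl, rfl, h1.1.trans h2'.1.symm, h1.2.trans h2'.2.symm⟩
  case aff.aff.vert.gen =>
    obtain ⟨rfl, rfl⟩ := h1
    obtain ⟨rfl, rfl⟩ := h2'
    exact ⟨rfl, rfl, h3.1.trans h4.1.symm, h3.2.trans h4.2.symm⟩
  case aff.aff.vert.vert =>
    right
    exact ⟨h1.1.symm.trans h3.1, h1.2.symm.trans h3.2⟩
  case aff.inf.gen.gen =>
    obtain ⟨rfl, rfl⟩ := h2'
    obtain ⟨rfl, rfl⟩ := h4
    exact ⟨rfl, rfl, by linear_combination h3.1 - h1.1, by linear_combination h3.2 - h1.2⟩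
  case aff.top.vert.vert => exact ⟨h1.1.symm.trans h3.1, h1.2.symm.trans h3.2⟩
  case inf.aff.gen.gen =>
    obtain ⟨rfl, rfl⟩ := h1
    obtain ⟨rfl, rfl⟩ := h3
    exact ⟨rfl, rfl, by linear_combination h4.1 - h2'.1, by linear_combination h4.2 - h2'.2⟩
  case inf.inf.gen.gen => exact Or.inl ⟨h1.1.trans h2'.1.symm, h1.2.trans h2'.2.symm⟩
  case inf.inf.gen.lin => exact ⟨h1.1.trans h2'.1.symm, h1.2.trans h2'.2.symm⟩
  case inf.inf.lin.gen => exact ⟨h3.1.trans h4.1.symm, h3.2.trans h4.2.symm⟩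
  case inf.inf.lin.lin => exact Or.inr trivial
  case top.aff.vert.vert => exact ⟨h2'.1.symm.trans h4.1, h2'.2.symm.trans h4.2⟩
  case top.top.vert.vert => exact Or.inl trivial
  case top.top.lin.lin => exact Or.inl trivial

theorem exists_pt (l m : Ln F) : ∃ p : Pt F, inc p l ∧ inc p m := by
  cases l <;> cases m
  case gen.gen x y k1 k2 x1 y1 k3 k4 =>
    by_cases h : x = x1 ∧ y = y1
    · exact ⟨.inf x y, ⟨rfl, rfl⟩, h⟩
    · have hD := det_ne h2 h8 h
      obtain ⟨i, hi⟩ : ∃ i : F, ((x + x1) * (y + y1) + (w x y + w x1 y1) ^ 2) * i = 1 :=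
        ⟨_, mul_inv_cancel₀ hD⟩
      let U1 := ((k1+k3)*(y+y1)+(k2+k4)*(w x y+w x1 y1))*i
      let U2 := ((k1+k3)*(w x y+w x1 y1)+(k2+k4)*(x+x1))*i
      refine ⟨.aff U1 U2 (U1 * x + U2 * w x y + k1) (U1 * w x y + U2 * y + k2), ⟨rfl, rfl⟩, ?_, ?_⟩
      · simp only [U1, U2]
        linear_combination (k1 + k3) * hi + ((-1)*i*k1*w x y*w x1 y1 + (-1)*i*k1*w x1 y1^2 + (-1)*i*k1*x1*y + (-1)*i*k1*x1*y1 + i*k2*w x y*x + (-1)*i*k2*w x1 y1*x1 + (-1)*i*k3*w x y*w x1 y1 + (-1)*i*k3*w x1 y1^2 + (-1)*i*k3*x1*y + (-1)*i*k3*x1*y1 + i*k4*w x y*x + (-1)*i*k4*w x1 y1*x1 + k1) * h2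
      · simp only [U1, U2]
        linear_combination (k2 + k4) * hi + (i*k1*w x y*y + (-1)*i*k1*w x1 y1*y1 + (-1)*i*k2*w x y*w x1 y1 + (-1)*i*k2*w x1 y1^2 + (-1)*i*k2*x*y1 + (-1)*i*k2*x1*y1 + i*k3*w x y*y + (-1)*i*k3*w x1 y1*y1 + (-1)*i*k4*w x y*w x1 y1 + (-1)*i*k4*w x1 y1^2 + (-1)*i*k4*x*y1 + (-1)*i*k4*x1*y1 + k2) * h2
  case gen.vert x y k1 k2 k3 k4 =>
    exact ⟨.aff k3 k4 (k3 * x + k4 * w x y + k1) (k3 * w x y + k4 * y + k2), ⟨rfl, rfl⟩, rfl, rfl⟩
  case gen.lin x y k1 k2 => exact ⟨.inf x y, ⟨rfl, rfl⟩, trivial⟩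
  case vert.gen k3 k4 x y k1 k2 =>
    exact ⟨.aff k3 k4 (k3 * x + k4 * w x y + k1) (k3 * w x y + k4 * y + k2), ⟨rfl, rfl⟩, rfl, rfl⟩
  case vert.vert => exact ⟨.top, trivial, trivial⟩
  case vert.lin => exact ⟨.top, trivial, trivial⟩
  case lin.gen x y k1 k2 => exact ⟨.inf x y, trivial, ⟨rfl, rfl⟩⟩
  case lin.vert => exact ⟨.top, trivial, trivial⟩
  case lin.lin => exact ⟨.top, trivial, trivial⟩

theorem exists_ln [Finite F] (p q : Pt F) : ∃ l : Ln F, inc p l ∧ inc q l := by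
  cases p <;> cases q
  case aff.aff u1 u2 v1 v2 u3 u4 v3 v4 =>
    by_cases h : u1 - u3 = 0 ∧ u2 - u4 = 0
    · exact ⟨.vert u1 u2, ⟨rfl, rfl⟩, (sub_eq_zero.mp h.1).symm, (sub_eq_zero.mp h.2).symm⟩
    · obtain ⟨x, y, e1, e2⟩ := surj h2 h8 h (v1 - v3) (v2 - v4)
      refine ⟨.gen x y (v1 - (u1 * x + u2 * w x y)) (v2 - (u1 * w x y + u2 * y)), ⟨?_, ?_⟩, ?_, ?_⟩
      · ring
      · ring
      · linear_combination e1
      · linear_combination e2
  case aff.inf u1 u2 v1 v2 x y =>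
    exact ⟨.gen x y (v1 - (u1 * x + u2 * w x y)) (v2 - (u1 * w x y + u2 * y)),
      ⟨by ring, by ring⟩, rfl, rfl⟩
  case aff.top u1 u2 v1 v2 => exact ⟨.vert u1 u2, ⟨rfl, rfl⟩, trivial⟩
  case inf.aff x y u1 u2 v1 v2 =>
    exact ⟨.gen x y (v1 - (u1 * x + u2 * w x y)) (v2 - (u1 * w x y + u2 * y)),
      ⟨rfl, rfl⟩, by ring, by ring⟩
  case inf.inf => exact ⟨.lin, trivial, trivial⟩
  case inf.top => exact ⟨.lin, trivial, trivial⟩
  case top.aff u1 u2 v1 v2 => exact ⟨.vert u1 u2, trivial, ⟨rfl, rfl⟩⟩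
  case top.inf => exact ⟨.lin, trivial, trivial⟩
  case top.top => exact ⟨.lin, trivial, trivial⟩

end alg

/-- The dual plane: the lines of the plane are its points. -/
instance : Membership (Ln F) (Pt F) := ⟨inc⟩

theorem mem_iff (p : Ln F) (m : Pt F) : p ∈ m ↔ inc m p := Iff.rfl

instance [Finite F] : Finite (Pt F) := by
  have : Function.Injective (fun p : Pt F => match p with
    | .aff u1 u2 v1 v2 => (Sum.inl (u1, u2, v1, v2) : (F × F × F × F) ⊕ (F × F) ⊕ Unit)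
    | .inf x y => Sum.inr (Sum.inl (x, y))
    | .top => Sum.inr (Sum.inr ())) := by
    intro p q h
    cases p <;> cases q <;> simp_all
  exact Finite.of_injective _ this

instance [Finite F] : Finite (Ln F) := by
  have : Function.Injective (fun p : Ln F => match p with
    | .gen u1 u2 v1 v2 => (Sum.inl (u1, u2, v1, v2) : (F × F × F × F) ⊕ (F × F) ⊕ Unit)
    | .vert x y => Sum.inr (Sum.inl (x, y))
    | .lin => Sum.inr (Sum.inr ())) := by
    intro p q h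
    cases p <;> cases q <;> simp_all
  exact Finite.of_injective _ this

/-- The dual plane is a projective plane. -/
@[reducible] noncomputable def plane (h2 : (2 : F) = 0) (h8 : ∀ x : F, x ^ 8 = x) [Finite F] :
    Configuration.ProjectivePlane (Ln F) (Pt F) where
  exists_point l := by
    cases l
    case aff => exact ⟨.lin, fun h => h⟩
    case inf => exact ⟨.vert 0 0, fun h => h⟩
    case top => exact ⟨.gen 0 0 0 0, fun h => h⟩
  exists_line p := by
    cases p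
    case gen => exact ⟨.top, fun h => h⟩
    case vert => exact ⟨.inf 0 0, fun h => h⟩
    case lin => exact ⟨.aff 0 0 0 0, fun h => h⟩
  eq_or_eq a b c d := (inc_uniq h2 h8 a c b d).symm
  mkPoint {l₁ l₂} _ := (exists_ln h2 h8 l₁ l₂).choose
  mkPoint_ax {l₁ l₂} _ := (exists_ln h2 h8 l₁ l₂).choose_spec
  mkLine {p₁ p₂} _ := (exists_pt h2 h8 p₁ p₂).choose
  mkLine_ax {p₁ p₂} _ := (exists_pt h2 h8 p₁ p₂).choose_spec
  exists_config := by
    refine ⟨.gen 1 0 0 0, .lin, .vert 1 0, .aff 0 0 0 0, .top, .inf 0 0, fun h => h, ?_, fun h => h,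
      trivial, trivial, ?_, trivial, fun h => h⟩
    · intro h
      exact zero_ne_one h.1
    · intro h
      exact zero_ne_one h.1

section maps

/-- Action of the translation of slopes on the points. -/
def tPt (a b : F) : Pt F → Pt F
  | .aff u1 u2 v1 v2 => .aff (u1 + a ^ 2 * u2) u2
      (v1 + ((u1 + a ^ 2 * u2) * a + u2 * (a ^ 3 + b ^ 2)))
      (a ^ 2 * v1 + v2 + ((u1 + a ^ 2 * u2) * (a ^ 3 + b ^ 2) + u2 * b))
  | .inf x y => .inf (x + a) (y + a ^ 4 * x + b)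
  | .top => .top

/-- Action of the translation of slopes on the lines. -/
def tLn (a b : F) : Ln F → Ln F
  | .gen x y k1 k2 => .gen (x + a) (y + a ^ 4 * x + b) k1 (a ^ 2 * k1 + k2)
  | .vert k1 k2 => .vert (k1 + a ^ 2 * k2) k2
  | .lin => .lin

open Classical in
/-- Action of the swap on the points. -/
noncomputable def fPt : Pt F → Pt F
  | .aff u1 u2 v1 v2 => .aff v1 v2 u1 u2
  | .inf x y => if x = 0 ∧ y = 0 then .top else .inf (y * (D x y)⁻¹) (x * (D x y)⁻¹)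
  | .top => .inf 0 0

open Classical in
/-- Action of the swap on the lines. -/
noncomputable def fLn : Ln F → Ln F
  | .gen x y k1 k2 => if x = 0 ∧ y = 0 then .vert k1 k2 else
      .gen (y * (D x y)⁻¹) (x * (D x y)⁻¹) ((k1 * y + k2 * w x y) * (D x y)⁻¹)
        ((k1 * w x y + k2 * x) * (D x y)⁻¹)
  | .vert k1 k2 => .gen 0 0 k1 k2
  | .lin => .lin

variable (h2 : (2 : F) = 0) (h8 : ∀ x : F, x ^ 8 = x)
include h2 h8

theorem tPt_tPt (a b : F) (p : Pt F) : tPt a (b + a ^ 5) (tPt a b p) = p := by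
  cases p
  case aff u1 u2 v1 v2 =>
    simp only [tPt, Pt.aff.injEq]
    refine ⟨?_, trivial, ?_, ?_⟩
    · linear_combination (a^2*u2) * h2
    · linear_combination (a^2*u2) * h8 a + (a*u1 + (3)*a^3*u2 + a^5*b*u2 + b^2*u2) * h2
    · linear_combination (a^2*u1 + (2)*a^4*u2) * h8 a + ((2)*a^2*b^2*u2 + a^2*v1 + (2)*a^3*u1 + a^5*b*u1 + (4)*a^5*u2 + (2)*a^7*b*u2 + b*u2 + b^2*u1) * h2
  case inf x y =>
    simp only [tPt, Pt.inf.injEq]
    constructor
    · linear_combination a * h2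
    · linear_combination (a^4*x + a^5 + b) * h2
  case top => rfl

theorem tLn_tLn (a b : F) (p : Ln F) : tLn a (b + a ^ 5) (tLn a b p) = p := by
  cases p
  case gen x y k1 k2 =>
    simp only [tLn, Ln.gen.injEq]
    refine ⟨?_, ?_, trivial, ?_⟩
    · linear_combination a * h2
    · linear_combination (a^4*x + a^5 + b) * h2
    · linear_combination (a^2*k1) * h2
  case vert k1 k2 =>
    simp only [tLn, Ln.vert.injEq]
    exact ⟨by linear_combination (a^2*k2) * h2, trivial⟩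
  case lin => rfl

theorem b_eq (a b : F) : (b + a ^ 5) + a ^ 5 = b := by linear_combination a ^ 5 * h2

theorem wT (a b x y : F) :
    w (x + a) (y + a ^ 4 * x + b) = w x y + a ^ 2 * x + (a ^ 3 + b ^ 2) := by
  unfold w
  linear_combination (x^2) * h8 a + ((2)*a*x^2 + a^2*x + a^4*b*x + a^4*x*y + b*y) * h2

theorem t_inc (a b : F) (p : Pt F) (l : Ln F) (h : inc p l) : inc (tPt a b p) (tLn a b l) := by
  cases p <;> cases l <;> simp only [inc, tPt, tLn] at h ⊢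
  case aff.gen u1 u2 v1 v2 x y k1 k2 =>
    rw [wT h2 h8]
    constructor
    · linear_combination h.1 + ((-1)*a^2*u2*x) * h2
    · linear_combination (a^2) * h.1 + h.2 + ((-1)*a^4*u2*x) * h2
  case aff.vert u1 u2 v1 v2 k1 k2 =>
    rw [h.1, h.2]
    exact ⟨rfl, rfl⟩
  case inf.gen x y x1 y1 k1 k2 =>
    rw [h.1, h.2]
    exact ⟨rfl, rfl⟩

theorem wi {x y i : F} (hi : D x y * i = 1) : w (y * i) (x * i) = w x y * i := by
  have hw := wD h2 h8 x y
  rw [w]
  linear_combination ((-1)*i^3) * hw + (D x y*i^2*w x y + i*w x y + (-1)*i^2*x^2) * hi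

theorem Di {x y i : F} (hi : D x y * i = 1) : D (y * i) (x * i) = i := by
  have hw := wi h2 h8 hi
  have hD : D x y = x * y + w x y ^ 2 := rfl
  rw [D, hw]
  linear_combination ((-1)*i^2) * hD + (i) * hi

theorem f_inc (p : Pt F) (l : Ln F) (h : inc p l) : inc (fPt p) (fLn l) := by
  cases p <;> cases l <;> simp only [inc, fPt, fLn] at h ⊢
  case aff.gen u1 u2 v1 v2 x y k1 k2 =>
    by_cases h0 : x = 0 ∧ y = 0
    · obtain ⟨rfl, rfl⟩ := h0
      simp only [and_self, if_true]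
      simpa [w] using h
    · rw [if_neg h0]
      have hD0 := D_ne h2 h8 h0
      have hi : D x y * (D x y)⁻¹ = 1 := mul_inv_cancel₀ hD0
      have hw := wi h2 h8 hi
      have hD : D x y = x * y + w x y ^ 2 := rfl
      generalize (D x y)⁻¹ = i at *
      simp only [inc]
      rw [hw]
      constructor
      · linear_combination ((-1)*u1) * hi + (i*u1) * hD + ((-1)*i*y) * h.1 + ((-1)*i*w x y) * h.2 + ((-1)*i*k1*y + (-1)*i*k2*w x y + (-1)*i*u2*w x y*y) * h2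
      · linear_combination ((-1)*u2) * hi + (i*u2) * hD + ((-1)*i*w x y) * h.1 + ((-1)*i*x) * h.2 + ((-1)*i*k1*w x y + (-1)*i*k2*x + (-1)*i*u1*w x y*x) * h2
  case aff.vert u1 u2 v1 v2 k1 k2 =>
    simp only [w]
    constructor
    · linear_combination h.1
    · linear_combination h.2
  case inf.gen x y x1 y1 k1 k2 =>
    obtain ⟨rfl, rfl⟩ := h
    by_cases h0 : x = 0 ∧ y = 0
    · rw [if_pos h0, if_pos h0]
      trivial
    · rw [if_neg h0, if_neg h0]
      exact ⟨rfl, rfl⟩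
  case inf.lin x y =>
    by_cases h0 : x = 0 ∧ y = 0
    · rw [if_pos h0]
      trivial
    · rw [if_neg h0]
      trivial
  case top.vert => exact ⟨trivial, trivial⟩

theorem ne_swap {x y : F} (h0 : ¬ (x = 0 ∧ y = 0)) :
    ¬ (y * (D x y)⁻¹ = 0 ∧ x * (D x y)⁻¹ = 0) := by
  have hD0 := D_ne h2 h8 h0
  rintro ⟨h3, h4⟩
  rcases mul_eq_zero.mp h3 with h5 | h5
  · rcases mul_eq_zero.mp h4 with h6 | h6
    · exact h0 ⟨h6, h5⟩
    · exact inv_ne_zero hD0 h6
  · exact inv_ne_zero hD0 h5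

theorem fPt_fPt (p : Pt F) : fPt (fPt p) = p := by
  cases p
  case aff => rfl
  case inf x y =>
    by_cases h0 : x = 0 ∧ y = 0
    · simp only [fPt, if_pos h0]
      rw [h0.1, h0.2]
    · simp only [fPt, if_neg h0, if_neg (ne_swap h2 h8 h0)]
      have hD0 := D_ne h2 h8 h0
      have hi : D x y * (D x y)⁻¹ = 1 := mul_inv_cancel₀ hD0
      rw [Di h2 h8 hi]
      rw [inv_inv, mul_assoc, mul_assoc, inv_mul_cancel₀ hD0, mul_one, mul_one]
  case top => simp [fPt]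

theorem fLn_fLn (p : Ln F) : fLn (fLn p) = p := by
  cases p
  case lin => rfl
  case gen x y k1 k2 =>
    by_cases h0 : x = 0 ∧ y = 0
    · simp only [fLn, if_pos h0]
      rw [h0.1, h0.2]
    · simp only [fLn, if_neg h0, if_neg (ne_swap h2 h8 h0)]
      have hD0 := D_ne h2 h8 h0
      have hi : D x y * (D x y)⁻¹ = 1 := mul_inv_cancel₀ hD0
      have hj : (D x y)⁻¹ * (D x y)⁻¹⁻¹ = 1 := mul_inv_cancel₀ (inv_ne_zero hD0)
      have hw := wi h2 h8 hi
      have hD : D x y = x * y + w x y ^ 2 := rfl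
      rw [Di h2 h8 hi, hw]
      rw [Ln.gen.injEq]
      refine ⟨?_, ?_, ?_, ?_⟩
      · rw [mul_assoc, hj, mul_one]
      · rw [mul_assoc, hj, mul_one]
      · generalize (D x y)⁻¹⁻¹ = j at *
        generalize (D x y)⁻¹ = i at *
        linear_combination (i*k1*w x y^2 + i*k1*x*y + (2)*i*k2*w x y*x) * hj + ((-1)*i*k1) * hD + (k1) * hi + (i*k2*w x y*x) * h2
      · generalize (D x y)⁻¹⁻¹ = j at *
        generalize (D x y)⁻¹ = i at *
        linear_combination ((2)*i*k1*w x y*y + i*k2*w x y^2 + i*k2*x*y) * hj + ((-1)*i*k2) * hD + (k2) * hi + (i*k1*w x y*y) * h2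
  case vert => simp [fLn]

/-- The translation as a collineation of the dual plane. -/
def tau (a b : F) : Equiv.Perm (Ln F) × Equiv.Perm (Pt F) :=
  (⟨tLn a b, tLn a (b + a ^ 5), tLn_tLn h2 h8 a b, fun p => by
      have := tLn_tLn h2 h8 a (b + a ^ 5) p
      rwa [b_eq h2 h8] at this⟩,
   ⟨tPt a b, tPt a (b + a ^ 5), tPt_tPt h2 h8 a b, fun p => by
      have := tPt_tPt h2 h8 a (b + a ^ 5) p
      rwa [b_eq h2 h8] at this⟩)

/-- The swap as a collineation of the dual plane. -/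
noncomputable def phi : Equiv.Perm (Ln F) × Equiv.Perm (Pt F) :=
  (⟨fLn, fLn, fLn_fLn h2 h8, fLn_fLn h2 h8⟩, ⟨fPt, fPt, fPt_fPt h2 h8, fPt_fPt h2 h8⟩)

end maps

/-- All collineations of the dual plane that fix the given line. -/
def grp (o : Pt F) : Subgroup (Equiv.Perm (Ln F) × Equiv.Perm (Pt F)) where
  carrier := {g | (∀ (p : Ln F) (m : Pt F), p ∈ m ↔ g.1 p ∈ g.2 m) ∧ g.2 o = o}
  mul_mem' := by
    rintro g h ⟨g1, g2⟩ ⟨h1, h2⟩
    refine ⟨fun p m => ?_, ?_⟩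
    · rw [h1 p m, g1]
      rfl
    · change g.2 (h.2 o) = o
      rw [h2, g2]
  one_mem' := ⟨fun _ _ => Iff.rfl, rfl⟩
  inv_mem' := by
    rintro g ⟨g1, g2⟩
    refine ⟨fun p m => ?_, ?_⟩
    · rw [g1 (g⁻¹.1 p) (g⁻¹.2 m)]
      simp
    · have : g.2⁻¹ (g.2 o) = o := by simp
      rw [g2] at this
      exact this

theorem mem_grp {o : Pt F} {g : Equiv.Perm (Ln F) × Equiv.Perm (Pt F)} :
    g ∈ grp o ↔ (∀ (p : Ln F) (m : Pt F), p ∈ m ↔ g.1 p ∈ g.2 m) ∧ g.2 o = o := Iff.rfl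

section final

variable (h2 : (2 : F) = 0) (h8 : ∀ x : F, x ^ 8 = x)
include h2 h8

/-- The affine origin, a line of the dual plane. -/
def o : Pt F := .aff 0 0 0 0

theorem tau_mem (a b : F) : tau h2 h8 a b ∈ grp (o : Pt F) := by
  rw [mem_grp]
  refine ⟨fun p m => ⟨fun h => t_inc h2 h8 a b m p h, fun h => ?_⟩, ?_⟩
  · have h' := t_inc h2 h8 a (b + a ^ 5) _ _ ((mem_iff _ _).mp h)
    change inc (tPt a (b + a ^ 5) (tPt a b m)) (tLn a (b + a ^ 5) (tLn a b p)) at h'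
    rw [tPt_tPt h2 h8, tLn_tLn h2 h8] at h'
    exact h'
  · change tPt a b o = o
    simp [o, tPt]

theorem phi_mem : phi h2 h8 ∈ grp (o : Pt F) := by
  rw [mem_grp]
  refine ⟨fun p m => ⟨fun h => f_inc h2 h8 m p h, fun h => ?_⟩, rfl⟩
  have h' := f_inc h2 h8 _ _ ((mem_iff _ _).mp h)
  change inc (fPt (fPt m)) (fLn (fLn p)) at h'
  rw [fPt_fPt h2 h8, fLn_fLn h2 h8] at h'
  exact h'

theorem mem_o {a : Ln F} (h : a ∈ (o : Pt F)) : a = .vert 0 0 ∨ ∃ x y, a = .gen x y 0 0 := by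
  rw [mem_iff] at h
  cases a <;> simp only [inc, o] at h
  case gen x y k1 k2 =>
    right
    refine ⟨x, y, ?_⟩
    rw [Ln.gen.injEq]
    refine ⟨rfl, rfl, ?_, ?_⟩
    · linear_combination -h.1
    · linear_combination -h.2
  case vert k1 k2 =>
    left
    rw [← h.1, ← h.2]

theorem step0 (x y : F) : ∃ g ∈ grp (o : Pt F), g.1 (.vert 0 0) = .vert 0 0 ∧
    g.1 (.gen x y 0 0) = .gen 0 0 0 0 := by
  refine ⟨tau h2 h8 x (y + x ^ 5), tau_mem h2 h8 _ _, ?_, ?_⟩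
  · change tLn x (y + x ^ 5) (.vert 0 0) = .vert 0 0
    simp [tLn]
  · change tLn x (y + x ^ 5) (.gen x y 0 0) = .gen 0 0 0 0
    simp only [tLn, Ln.gen.injEq]
    refine ⟨?_, ?_, trivial, ?_⟩
    · linear_combination x * h2
    · linear_combination (x^5 + y) * h2
    · ring

theorem step1 {a b : Ln F} (ha : a ∈ (o : Pt F)) (hb : b ∈ (o : Pt F)) (hab : a ≠ b) :
    ∃ g ∈ grp (o : Pt F), g.1 a = .vert 0 0 ∧ g.1 b = .gen 0 0 0 0 := by
  have key0 : ∀ b : Ln F, b ∈ (o : Pt F) → .vert 0 0 ≠ b →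
      ∃ g ∈ grp (o : Pt F), g.1 (.vert 0 0) = .vert 0 0 ∧ g.1 b = .gen 0 0 0 0 := by
    intro b hb hne
    rcases mem_o h2 h8 hb with rfl | ⟨x, y, rfl⟩
    · exact absurd rfl hne
    · exact step0 h2 h8 x y
  have key1 : ∃ g ∈ grp (o : Pt F), g.1 a = .vert 0 0 := by
    rcases mem_o h2 h8 ha with rfl | ⟨x, y, rfl⟩
    · exact ⟨1, one_mem _, rfl⟩
    · obtain ⟨g, hg, -, h⟩ := step0 h2 h8 x y
      refine ⟨phi h2 h8 * g, mul_mem (phi_mem h2 h8) hg, ?_⟩
      change fLn (g.1 _) = _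
      rw [h]
      simp [fLn]
  obtain ⟨g, hg, hga⟩ := key1
  have hgb : g.1 b ∈ (o : Pt F) := by
    have := (hg.1 b o).mp hb
    rwa [hg.2] at this
  have hne : .vert 0 0 ≠ g.1 b := by
    rw [← hga]
    exact fun h => hab (g.1.injective h)
  obtain ⟨g', hg', h1, h3⟩ := key0 _ hgb hne
  refine ⟨g' * g, mul_mem hg' hg, ?_, h3⟩
  change g'.1 (g.1 a) = _
  rw [hga, h1]

theorem two_trans {a b c d : Ln F} (ha : a ∈ (o : Pt F)) (hb : b ∈ (o : Pt F))
    (hc : c ∈ (o : Pt F)) (hd : d ∈ (o : Pt F)) (hab : a ≠ b) (hcd : c ≠ d) :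
    ∃ g ∈ grp (o : Pt F), g.1 a = c ∧ g.1 b = d := by
  obtain ⟨g, hg, h1, h3⟩ := step1 h2 h8 ha hb hab
  obtain ⟨g', hg', h1', h3'⟩ := step1 h2 h8 hc hd hcd
  refine ⟨g'⁻¹ * g, mul_mem (inv_mem hg') hg, ?_, ?_⟩
  · change g'.1⁻¹ (g.1 a) = c
    rw [h1, ← h1']
    simp
  · change g'.1⁻¹ (g.1 b) = d
    rw [h3, ← h3']
    simp

theorem no_sigma {t : F} (ht : t ^ 2 + t ≠ 0) (σ : Equiv.Perm (Ln F) × Equiv.Perm (Pt F))
    (hσ : ∀ (p : Ln F) (m : Pt F), (p ∈ m ↔ σ.1 p ∈ σ.2 m))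
    (hl : ∀ p : Ln F, p ∈ (o : Pt F) → σ.1 p = p)
    (hc : ∀ m : Pt F, (.vert 0 0 : Ln F) ∈ m → σ.2 m = m)
    (hx : σ.1 .lin = .vert 1 0) : False := by
  -- image of the infinite points
  have s1 : ∀ x y : F, σ.2 (.inf x y) = .aff 1 0 x (w x y) := by
    intro x y
    have e1 : (.gen x y 0 0 : Ln F) ∈ σ.2 (.inf x y) := by
      have := (hσ (.gen x y 0 0) (.inf x y)).mp ⟨rfl, rfl⟩
      rwa [hl (.gen x y 0 0) (by rw [mem_iff]; simp [o, inc])] at this
    have e2 : (.vert 1 0 : Ln F) ∈ σ.2 (.inf x y) := by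
      have := (hσ .lin (.inf x y)).mp trivial
      rwa [hx] at this
    generalize σ.2 (.inf x y) = q at *
    rw [mem_iff] at e1 e2
    cases q <;> simp only [inc] at e1 e2
    case aff u1 u2 v1 v2 =>
      obtain ⟨rfl, rfl⟩ := e2
      rw [Pt.aff.injEq]
      refine ⟨rfl, rfl, ?_, ?_⟩
      · linear_combination e1.1
      · linear_combination e1.2
  -- image of the lines
  have s2 : ∀ x y k1 k2 : F, ∃ x' y' : F, σ.1 (.gen x y k1 k2) = .gen x' y' k1 k2 ∧
      x = x' + k1 ∧ w x y = w x' y' + k2 := by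
    intro x y k1 k2
    have e1 : σ.1 (.gen x y k1 k2) ∈ (.aff 1 0 x (w x y) : Pt F) := by
      have := (hσ (.gen x y k1 k2) (.inf x y)).mp ⟨rfl, rfl⟩
      rwa [s1] at this
    have e2 : σ.1 (.gen x y k1 k2) ∈ (.aff 0 0 k1 k2 : Pt F) := by
      have := (hσ (.gen x y k1 k2) (.aff 0 0 k1 k2)).mp (by rw [mem_iff]; simp [inc])
      rwa [hc (.aff 0 0 k1 k2) ⟨rfl, rfl⟩] at this
    generalize σ.1 (.gen x y k1 k2) = q at *
    rw [mem_iff] at e1 e2
    cases q <;> simp only [inc] at e1 e2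
    case gen x' y' k3 k4 =>
      have f1 : k3 = k1 := by linear_combination -e2.1
      have f2 : k4 = k2 := by linear_combination -e2.2
      subst f1 f2
      refine ⟨x', y', rfl, ?_, ?_⟩
      · linear_combination e1.1
      · linear_combination e1.2
    case vert k3 k4 =>
      exact absurd (e1.1.trans e2.1.symm) one_ne_zero
  -- image of one more affine point
  have s3 : ∀ x y : F, σ.1 (.gen x y (w x y) y) ∈ σ.2 (.aff 0 1 0 0 : Pt F) := by
    intro x y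
    refine (hσ _ _).mp ?_
    rw [mem_iff]
    constructor
    · linear_combination (-w x y) * h2
    · linear_combination (-y) * h2
  have s4 : (.gen 0 0 0 0 : Ln F) ∈ σ.2 (.aff 0 1 0 0 : Pt F) := by
    have h5 := (hσ (.gen 0 0 0 0) (.aff 0 1 0 0)).mp (by rw [mem_iff]; simp [inc, w])
    rwa [hl (.gen 0 0 0 0) (by rw [mem_iff]; simp [o, inc])] at h5
  generalize σ.2 (.aff 0 1 0 0 : Pt F) = q at *
  rw [mem_iff] at s4
  cases q <;> simp only [inc] at s4
  case aff p q v1 v2 =>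
    have hw0 : w (0 : F) 0 = 0 := by simp [w]
    have f1 : v1 = 0 := by linear_combination s4.1 + q * hw0
    subst f1
    have s5 : ∀ x y : F, p * (x + w x y) + q * (w x y + y) + w x y = 0 := by
      intro x y
      have h5 := s3 x y
      obtain ⟨x', y', h6, h7, h9⟩ := s2 x y (w x y) y
      rw [h6, mem_iff] at h5
      simp only [inc] at h5
      linear_combination -h5.1 + p * (h7 + w x y * h2) + q * (h9 + y * h2)
    have g1 := s5 0 1
    have g2 := s5 1 0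
    have g3 := s5 0 t
    simp only [w] at g1 g2 g3
    have hp : p = 1 := by linear_combination g1 - (q + 1) * h2
    have hq : q = 1 := by linear_combination g2 - (p + 1) * h2
    subst hp hq
    apply ht
    linear_combination g3 - t ^ 2 * h2
  case inf x0 y0 =>
    obtain ⟨rfl, rfl⟩ := s4
    have h5 := s3 1 0
    obtain ⟨x', y', h6, h7, h9⟩ := s2 1 0 (w 1 0) 0
    rw [h6, mem_iff] at h5
    simp only [inc] at h5
    obtain ⟨rfl, rfl⟩ := h5
    simp [w] at h9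

end final

end Pool.Agent.H78Lune
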